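import Pool.Agent.H525.QF.Stm

/-!
# Project QF (helper525): the fourth root of `X` modulo a squarefree polynomial
-/

namespace Pool.Agent.H181.QF

open Polynomial Pool.Agent.H525.QF

/-- in a ring with `2 = 0` the fourth power is additive -/
theorem add_pow_four {R : Type*} [CommRing R] (h2 : (2 : R) = 0) (x y : R) :
    (x + y) ^ 4 = x ^ 4 + y ^ 4 := by
  have h : (x + y) ^ 4 = x ^ 4 + y ^ 4 +
      2 * (2 * x ^ 3 * y + 3 * x ^ 2 * y ^ 2 + 2 * x * y ^ 3) := by ring
  rw [h, h2, zero_mul, add_zero]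

/-- in a finite reduced ring with `2 = 0` every element is a fourth power -/
theorem exists_pow_four {R : Type*} [CommRing R] [Finite R] [IsReduced R] (h2 : (2 : R) = 0)
    (a : R) : ∃ t : R, t ^ 4 = a := by
  have hinj : Function.Injective (fun x : R => x ^ 4) := by
    intro x y hxy
    have hxy' : x ^ 4 = y ^ 4 := hxy
    have h1 : (x + y) ^ 4 = 0 := by
      rw [add_pow_four h2, hxy']
      have : y ^ 4 + y ^ 4 = 2 * y ^ 4 := by ring
      rw [this, h2, zero_mul]
    have h3 : x + y = 0 := pow_eq_zero_iff (by norm_num) |>.1 h1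
    have h4 : y + y = 0 := by
      have : y + y = 2 * y := by ring
      rw [this, h2, zero_mul]
    exact add_right_cancel (h3.trans h4.symm)
  exact Finite.surjective_of_injective hinj a

theorem t_root : S_root := by
  intro K _ _ _ b hb hsq
  have hfin : Finite (K[X] ⧸ Ideal.span {b}) := by
    have : Module.Finite K (K[X] ⧸ Ideal.span {b}) := hb.finite_quotient
    exact Module.finite_of_finite K
  have hred : IsReduced (K[X] ⧸ Ideal.span {b}) :=
    (Ideal.isRadical_iff_quotient_reduced _).1 (isRadical_iff_span_singleton.1 hsq.isRadical)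
  have h2K : (2 : K) = 0 := by
    have := CharP.cast_eq_zero K 2
    exact_mod_cast this
  have h2X : (2 : K[X]) = 0 := by
    have h : (2 : K[X]) = C (2 : K) := (map_ofNat C 2).symm
    rw [h, h2K, C_0]
  have h2 : (2 : K[X] ⧸ Ideal.span {b}) = 0 := by
    have h : (2 : K[X] ⧸ Ideal.span {b}) = Ideal.Quotient.mk (Ideal.span {b}) 2 :=
      (map_ofNat _ 2).symm
    rw [h, h2X, map_zero]
  obtain ⟨t, ht⟩ := exists_pow_four h2 (Ideal.Quotient.mk (Ideal.span {b}) X)
  obtain ⟨τ, rfl⟩ := Ideal.Quotient.mk_surjective t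
  refine ⟨τ, fun v => ?_⟩
  rw [← Ideal.Quotient.eq_zero_iff_dvd, ← Ideal.Quotient.eq_zero_iff_dvd]
  have h1 : Ideal.Quotient.mk (Ideal.span {b}) (F v) =
      Ideal.Quotient.mk (Ideal.span {b}) (v.1 + τ * v.2) ^ 4 := by
    unfold F
    rw [map_add, map_mul, map_pow, map_pow, map_add, map_mul, add_pow_four h2, mul_pow, ht]
  rw [h1]
  exact pow_eq_zero_iff (by norm_num)

end Pool.Agent.H181.QF
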